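import Pool.Agent.J4H85.BK.Unif

/-!
# Kernels of Bergman space extremal functions in Hardy spaces (Q1 of MP_397fae_an)

For all `1 < p < ∞` and all `1 < q₁ < ∞`: if the `A^p` extremal function `F` of a kernel `k ∈ A^q`,
`q = p/(p-1)`, lies in `H^{(p-1)q₁}`, then `k ∈ H^{q₁}` and
`‖k‖_{H^{q₁}} ≤ C ‖k‖_{A^q} ‖F‖_{H^{(p-1)q₁}}^{p-1}`, where `C` depends on `p` and `q₁` only.
-/

set_option autoImplicit false

namespace Pool.Agent.Results.MP_397fae_an.KernelHardyNorm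

open Complex Metric Set Filter Topology MeasureTheory ComplexConjugate
open Pool.Agent

/-- area measure on the unit disc, normalised to have total mass one -/
noncomputable def σ : Measure ℂ := ENNReal.ofReal (1 / Real.pi) • volume.restrict (ball (0:ℂ) 1)

/-- the Bergman space `A^r`: `f` is analytic in the disc and `∫ |f|^r dσ < ∞` -/
def InBergman (r : ℝ) (f : ℂ → ℂ) : Prop :=
  DifferentiableOn ℂ f (ball 0 1) ∧ Integrable (fun z => ‖f z‖ ^ r) σ

/-- the norm of `A^r` -/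
noncomputable def bergmanNorm (r : ℝ) (f : ℂ → ℂ) : ℝ := (∫ z, ‖f z‖ ^ r ∂σ) ^ (1 / r)

/-- the functional `φ(f) = ∫ f k̄ dσ` with kernel `k` -/
noncomputable def functional (k f : ℂ → ℂ) : ℂ := ∫ z, f z * conj (k z) ∂σ

/-- `F` is the extremal function for `k`: `F ∈ A^p` has norm one and maximises `Re φ` over all
`g ∈ A^p` of norm one -/
def IsExtremal (p : ℝ) (k F : ℂ → ℂ) : Prop :=
  InBergman p F ∧ bergmanNorm p F = 1 ∧
    ∀ g, InBergman p g → bergmanNorm p g = 1 → (functional k g).re ≤ (functional k F).re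

/-- the mean `M_s(f,r)` -/
noncomputable def hardyMean (s : ℝ) (f : ℂ → ℂ) (r : ℝ) : ℝ :=
  ((2 * Real.pi)⁻¹ * ∫ θ in (0:ℝ)..(2 * Real.pi), ‖f (r * exp (θ * I))‖ ^ s) ^ (1 / s)

/-- the Hardy space `H^s`: `f` is analytic in the disc and `sup_{0<r<1} M_s(f,r) < ∞` -/
def InHardy (s : ℝ) (f : ℂ → ℂ) : Prop :=
  DifferentiableOn ℂ f (ball 0 1) ∧ ∃ C : ℝ, ∀ r ∈ Ioo (0:ℝ) 1, hardyMean s f r ≤ C

/-- the norm of `H^s`: `sup_{0<r<1} M_s(f,r)` -/
noncomputable def hardyNorm (s : ℝ) (f : ℂ → ℂ) : ℝ := sSup (hardyMean s f '' Ioo (0:ℝ) 1)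

lemma circ (r θ : ℝ) : (r : ℂ) * exp (θ * I) = circleMap 0 r θ := by
  simp [circleMap]

/-- the integrals of the powers, from the means -/
lemma int_le {s B r : ℝ} (hs : 0 < s) {f : ℂ → ℂ} (hB : hardyMean s f r ≤ B) :
    ∫ θ in (0:ℝ)..(2 * Real.pi), ‖f (circleMap 0 r θ)‖ ^ s ≤ 2 * Real.pi * B ^ s := by
  have h0 : 0 ≤ ∫ θ in (0:ℝ)..(2 * Real.pi), ‖f (circleMap 0 r θ)‖ ^ s :=
    intervalIntegral.integral_nonneg (by positivity) fun θ _ => by positivity
  unfold hardyMean at hB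
  simp only [circ] at hB
  have h1 : 0 ≤ (2 * Real.pi)⁻¹ * ∫ θ in (0:ℝ)..(2 * Real.pi), ‖f (circleMap 0 r θ)‖ ^ s := by
    positivity
  have h2 := Real.rpow_le_rpow (Real.rpow_nonneg h1 _) hB hs.le
  rw [← Real.rpow_mul h1, one_div_mul_cancel hs.ne', Real.rpow_one] at h2
  rwa [inv_mul_le_iff₀ Real.two_pi_pos] at h2

/-- the means, from the integrals of the powers -/
lemma mean_le {s B r : ℝ} (hs : 0 < s) {f : ℂ → ℂ} (hB0 : 0 ≤ B)
    (hB : ∫ θ in (0:ℝ)..(2 * Real.pi), ‖f (circleMap 0 r θ)‖ ^ s ≤ 2 * Real.pi * B ^ s) :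
    hardyMean s f r ≤ B := by
  have h0 : 0 ≤ ∫ θ in (0:ℝ)..(2 * Real.pi), ‖f (circleMap 0 r θ)‖ ^ s :=
    intervalIntegral.integral_nonneg (by positivity) fun θ _ => by positivity
  unfold hardyMean
  simp only [circ]
  have h1 : (2 * Real.pi)⁻¹ * ∫ θ in (0:ℝ)..(2 * Real.pi), ‖f (circleMap 0 r θ)‖ ^ s ≤ B ^ s := by
    rwa [inv_mul_le_iff₀ Real.two_pi_pos]
  have h2 := Real.rpow_le_rpow (by positivity) h1 (by positivity : 0 ≤ 1 / s)
  rwa [← Real.rpow_mul hB0, mul_one_div_cancel hs.ne', Real.rpow_one] at h2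

lemma mean_nonneg (s : ℝ) (f : ℂ → ℂ) (r : ℝ) : 0 ≤ hardyMean s f r := by
  unfold hardyMean
  have h0 : 0 ≤ ∫ θ in (0:ℝ)..(2 * Real.pi), ‖f (r * exp (θ * I))‖ ^ s :=
    intervalIntegral.integral_nonneg (by positivity) fun θ _ => by positivity
  positivity

/-- the functional is bounded by the norm of the kernel -/
lemma functional_le {p q : ℝ} (hpq : p.HolderConjugate q) {k F : ℂ → ℂ} (hk : InBergman q k)
    (hF : InBergman p F) (hF1 : bergmanNorm p F = 1) : ‖functional k F‖ ≤ bergmanNorm q k := by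
  have hp0 := hpq.pos
  have hq0 := hpq.symm.pos
  have hπ : 0 < 1 / Real.pi := by positivity
  have hgood : R253.BE.Good σ := R253.BE.good_am hπ
  have mF : AEStronglyMeasurable F σ := hgood.meas F hF.1.continuousOn
  have mk : AEStronglyMeasurable k σ := hgood.meas k hk.1.continuousOn
  have conv : ∀ {e : ℝ}, 0 < e → ∀ {f : ℂ → ℂ}, AEStronglyMeasurable f σ →
      Integrable (fun z => ‖f z‖ ^ e) σ → MemLp (fun z => ‖f z‖) (ENNReal.ofReal e) σ := by
    intro e he f mf hf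
    have h1 : MemLp f (ENNReal.ofReal e) σ := by
      rw [← integrable_norm_rpow_iff mf (by simpa using he) ENNReal.ofReal_ne_top,
        ENNReal.toReal_ofReal he.le]
      exact hf
    exact h1.norm
  have h1 := integral_mul_le_Lp_mul_Lq_of_nonneg hpq (μ := σ) (f := fun z => ‖F z‖)
    (g := fun z => ‖k z‖) (Eventually.of_forall fun z => norm_nonneg _)
    (Eventually.of_forall fun z => norm_nonneg _) (conv hp0 mF hF.2) (conv hq0 mk hk.2)
  have h2 : (∫ z, ‖F z‖ ^ p ∂σ) ^ (1 / p) = 1 := hF1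
  rw [h2, one_mul] at h1
  unfold functional
  refine (norm_integral_le_integral_norm _).trans ?_
  simp only [norm_mul, RCLike.norm_conj]
  exact h1

/-- **Answer to Q1 (affirmative), with the norm inequality.** For all `1 < p < ∞` and all
`1 < q₁ < ∞` there is a constant `C`, depending on `p` and `q₁` only, such that for every kernel
`k ∈ A^q`, `q = p/(p-1)`, with `A^p` extremal function `F`: if `F ∈ H^{(p-1)q₁}` then `k ∈ H^{q₁}` and
`‖k‖_{H^{q₁}} ≤ C ‖k‖_{A^q} ‖F‖_{H^{(p-1)q₁}}^{p-1}`. -/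
theorem result : ∀ p q₁ : ℝ, 1 < p → 1 < q₁ → ∃ C : ℝ, 0 < C ∧ ∀ k F : ℂ → ℂ,
    InBergman (p / (p - 1)) k → IsExtremal p k F → InHardy ((p - 1) * q₁) F →
      InHardy q₁ k ∧
        hardyNorm q₁ k ≤ C * bergmanNorm (p / (p - 1)) k * hardyNorm ((p - 1) * q₁) F ^ (p - 1) := by
  intro p s hp hs
  have hp1 : 0 < p - 1 := by linarith
  have hs0 : 0 < s := by linarith
  have hs1 : 0 < s - 1 := by linarith
  have hps : 0 < (p - 1) * s := by positivity
  set q : ℝ := p / (p - 1) with hq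
  have hpq : p.HolderConjugate q := by
    rw [hq]; exact Real.HolderConjugate.conjExponent hp
  set t : ℝ := 1 + 1 / (s - 1) with htdef
  have ht : 1 < t := by
    have : 0 < 1 / (s - 1) := by positivity
    rw [htdef]; linarith
  have hst : (s - 1) * (t - 1) = 1 := by
    rw [htdef]; field_simp; ring
  have hπ : 0 < 1 / Real.pi := by positivity
  obtain ⟨C0, hC0, hub⟩ := J4H85.BK.ub_unif hπ hpq hs ht hst
  obtain ⟨K, hK, hhd⟩ := J4H85.BK.hardy_unif hs ht hst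
  refine ⟨K ^ (1 / s) * C0 + 1, by positivity, ?_⟩
  intro k F hk hF hFH
  have hkA : R253.BE.InA (R253.BE.am (1 / Real.pi)) q k := hk
  have hFA : R253.BE.IsExt (R253.BE.am (1 / Real.pi)) p k F := hF
  -- the norm of `F`
  obtain ⟨hFd, B, hB⟩ := hFH
  set NF : ℝ := hardyNorm ((p - 1) * s) F with hNF
  have hbdd : BddAbove (hardyMean ((p - 1) * s) F '' Ioo (0:ℝ) 1) := by
    refine ⟨B, ?_⟩
    rintro _ ⟨r, hr, rfl⟩
    exact hB r hr
  have hle : ∀ r : ℝ, 0 < r → r < 1 → hardyMean ((p - 1) * s) F r ≤ NF := fun r h0 h1 =>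
    le_csSup hbdd ⟨r, ⟨h0, h1⟩, rfl⟩
  have hNF0 : 0 ≤ NF := (mean_nonneg _ _ _).trans (hle (1 / 2) (by norm_num) (by norm_num))
  have hMF : ∀ r : ℝ, 0 < r → r < 1 →
      ∫ θ in (0:ℝ)..(2 * Real.pi), ‖F (circleMap 0 r θ)‖ ^ ((p - 1) * s) ≤
        2 * Real.pi * NF ^ ((p - 1) * s) := fun r h0 h1 => int_le hps (hle r h0 h1)
  have h1 := hub k F _ hkA hFA hMF
  -- the norm of the functional
  set Nk : ℝ := bergmanNorm q k with hNk
  have hm : |(R253.BE.phi (R253.BE.am (1 / Real.pi)) k F).re| ≤ Nk :=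
    (Complex.abs_re_le_norm _).trans (functional_le hpq hk hF.1 hF.2.1)
  have hNk0 : 0 ≤ Nk := (abs_nonneg _).trans hm
  set P : ℝ := NF ^ (p - 1) with hP
  have hP0 : 0 ≤ P := Real.rpow_nonneg hNF0 _
  have hPs : NF ^ ((p - 1) * s) = P ^ s := by rw [hP, ← Real.rpow_mul hNF0]
  have hJ : ∀ η : ℝ, 0 < η → ∀ r : ℝ, 0 < r → r < 1 →
      ∫ θ in (0:ℝ)..(2 * Real.pi), ‖k (circleMap 0 r θ)‖ ^ s ≤
        K * (Nk * C0 + η) ^ s * (2 * Real.pi * NF ^ ((p - 1) * s)) := by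
    intro η hη
    refine hhd k (Nk * C0 + η) _ hk.1 (by positivity) ?_
    intro ρ hρ G hG r h0 h1'
    refine (h1 ρ hρ G hG r h0 h1').trans ?_
    have h2 : 0 ≤ ∫ θ in (0:ℝ)..(2 * Real.pi), ‖G (circleMap 0 1 θ)‖ ^ t :=
      intervalIntegral.integral_nonneg (by positivity) fun θ _ => by positivity
    apply mul_le_mul_of_nonneg_right _ (by positivity)
    have := mul_le_mul_of_nonneg_right hm hC0
    linarith
  have hmean : ∀ r : ℝ, 0 < r → r < 1 → hardyMean s k r ≤ K ^ (1 / s) * (Nk * C0) * P := by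
    intro r h0 h1'
    have hη : ∀ η : ℝ, 0 < η → hardyMean s k r ≤ K ^ (1 / s) * (Nk * C0 + η) * P := by
      intro η hη
      apply mean_le hs0 (by positivity)
      refine (hJ η hη r h0 h1').trans (le_of_eq ?_)
      rw [Real.mul_rpow (by positivity) hP0, Real.mul_rpow (by positivity) (by positivity),
        ← Real.rpow_mul hK.le, one_div_mul_cancel hs0.ne', Real.rpow_one, hPs]
      ring
    have hlim : Tendsto (fun η : ℝ => K ^ (1 / s) * (Nk * C0 + η) * P) (𝓝[>] 0)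
        (𝓝 (K ^ (1 / s) * (Nk * C0 + 0) * P)) := by
      apply Tendsto.mono_left _ nhdsWithin_le_nhds
      exact ((tendsto_const_nhds.add tendsto_id).const_mul _).mul_const _
    rw [add_zero] at hlim
    exact ge_of_tendsto hlim (by
      filter_upwards [self_mem_nhdsWithin] with η h
      exact hη η h)
  have hfin : ∀ r ∈ Ioo (0:ℝ) 1, hardyMean s k r ≤ (K ^ (1 / s) * C0 + 1) * Nk * P := by
    intro r hr
    refine (hmean r hr.1 hr.2).trans ?_
    have : 0 ≤ Nk * P := by positivity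
    nlinarith
  refine ⟨⟨hk.1, _, hfin⟩, ?_⟩
  unfold hardyNorm
  apply csSup_le
  · exact ⟨_, ⟨1 / 2, ⟨by norm_num, by norm_num⟩, rfl⟩⟩
  · rintro _ ⟨r, hr, rfl⟩
    exact hfin r hr

end Pool.Agent.Results.MP_397fae_an.KernelHardyNorm
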